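import Pool.Agent.W360.MQ.Stm
import Pool.Agent.W74.IW.Plane

/-! # MQ-C1: from trigonometric polynomials to `C^1` maps of compact support -/

set_option autoImplicit false

namespace Pool.Agent.W925.MQ.C1

open MeasureTheory Set Filter Topology
open Pool.Agent.W488.IW (V Idx gd box dz dzb tp ek ka kb QC0)
open Pool.Agent.W360.MQ

theorem cont_tp (Λ : Finset Idx) (w c : Idx → ℂ) : Continuous (tp Λ w c) := by
  unfold tp ek
  fun_prop

theorem cont_gd (Λ : Finset Idx) (c : Idx → ℂ) : Continuous (gd Λ c) := by
  unfold gd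
  exact (cont_tp _ _ _).prodMk (cont_tp _ _ _)

theorem vol1 : (volume (Icc (0 : V) 1)) = 1 := by
  rw [Real.volume_Icc_pi]
  simp

theorem main : S_C1 := by
  intro w hw hQ F0 f hf hs
  have hw1 : Continuous (fun F : ℂ × ℂ => w (F0 + F) - w F0) :=
    (hw.comp (continuous_const.add continuous_id)).sub continuous_const
  have hq : QC0 (fun F : ℂ × ℂ => w (F0 + F) - w F0) := by
    intro N c
    have h1 := hQ F0 N c
    have h2 : IntegrableOn (fun x => w (F0 + gd (box N) c x)) (Icc (0 : V) 1) volume :=
      (hw.comp (continuous_const.add (cont_gd _ _))).continuousOn.integrableOn_compact isCompact_Icc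
    have h3 : IntegrableOn (fun _ : V => w F0) (Icc (0 : V) 1) volume :=
      continuous_const.continuousOn.integrableOn_compact isCompact_Icc
    have h4 : ∫ x in Icc (0 : V) 1, (w (F0 + gd (box N) c x) - w F0) =
        (∫ x in Icc (0 : V) 1, w (F0 + gd (box N) c x)) - w F0 := by
      rw [integral_sub h2 h3, setIntegral_const]
      simp [Measure.real, vol1]
    change 0 ≤ ∫ x in Icc (0 : V) 1, (w (F0 + gd (box N) c x) - w F0)
    rw [h4]
    linarith
  exact Pool.Agent.W74.IW.Plane.main _ hw1 (by simp) hq f hf hs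

end Pool.Agent.W925.MQ.C1
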