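import Pool.Agent.W360.MQ.Stm
import Pool.Agent.W411.IW.Pars

/-! # MQ-DET: the determinant is quasiaffine -/

set_option autoImplicit false

namespace Pool.Agent.W925.MQ.Det

open MeasureTheory Set Filter Topology
open Pool.Agent.W488.IW (V Idx gd box dz dzb tp ek ka kb QC0)
open Pool.Agent.W360.MQ

theorem cont_tp (Λ : Finset Idx) (w c : Idx → ℂ) : Continuous (tp Λ w c) := by
  unfold tp ek
  fun_prop

theorem kb_conj (k : Idx) : kb k = -(starRingEnd ℂ) (ka k) := by
  unfold ka kb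
  simp only [map_mul, map_sub, Complex.conj_I, Complex.conj_ofReal, map_intCast]
  ring

theorem norm_kb (k : Idx) : ‖kb k‖ = ‖ka k‖ := by
  rw [kb_conj, norm_neg, RCLike.norm_conj]

theorem zero_mem_box (N : ℕ) : (0 : Idx) ∈ box N := by
  unfold box
  simp

/-- adding a constant -/
theorem add_tp (N : ℕ) (w c : Idx → ℂ) (hw : w 0 = 0) (z : ℂ) (x : V) :
    z + tp (box N) w c x = tp (box N) (fun _ => 1)
      (fun k => if k = 0 then z else w k * c k) x := by
  unfold tp
  rw [← Finset.add_sum_erase _ _ (zero_mem_box N), ← Finset.add_sum_erase _ (fun k =>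
    (1 : ℂ) * (if k = 0 then z else w k * c k) * ek k x) (zero_mem_box N)]
  have h0 : ek 0 x = 1 := by
    unfold ek
    simp
  rw [hw, h0]
  simp only [if_true, zero_mul, zero_add, one_mul, mul_one]
  congr 1
  refine Finset.sum_congr rfl fun k hk => ?_
  rw [if_neg (Finset.ne_of_mem_erase hk)]

theorem int_sq (N : ℕ) (w c : Idx → ℂ) (hw : w 0 = 0) (z : ℂ) :
    ∫ x in Icc (0 : V) 1, ‖z + tp (box N) w c x‖ ^ 2 =
      ‖z‖ ^ 2 + ∑ k ∈ (box N).erase 0, ‖w k * c k‖ ^ 2 := by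
  simp only [add_tp N w c hw z]
  rw [Pool.Agent.W411.IW.Pars.main, ← Finset.add_sum_erase _ _ (zero_mem_box N)]
  simp only [if_true, one_mul]
  congr 1
  refine Finset.sum_congr rfl fun k hk => ?_
  rw [if_neg (Finset.ne_of_mem_erase hk)]

theorem main : S_DET := by
  intro c F0 N c'
  have ha : ka 0 = 0 := by
    unfold ka
    simp
  have hb : kb 0 = 0 := by
    unfold kb
    simp
  have i1 : IntegrableOn (fun x => ‖F0.1 + tp (box N) ka c' x‖ ^ 2) (Icc (0 : V) 1) volume :=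
    ((continuous_const.add (cont_tp _ _ _)).norm.pow 2).continuousOn.integrableOn_compact
      isCompact_Icc
  have i2 : IntegrableOn (fun x => ‖F0.2 + tp (box N) kb c' x‖ ^ 2) (Icc (0 : V) 1) volume :=
    ((continuous_const.add (cont_tp _ _ _)).norm.pow 2).continuousOn.integrableOn_compact
      isCompact_Icc
  have h1 : ∫ x in Icc (0 : V) 1, c * (‖(F0 + gd (box N) c' x).1‖ ^ 2 -
      ‖(F0 + gd (box N) c' x).2‖ ^ 2) = c * (‖F0.1‖ ^ 2 - ‖F0.2‖ ^ 2) := by
    rw [integral_const_mul]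
    congr 1
    change ∫ x in Icc (0 : V) 1, (‖F0.1 + tp (box N) ka c' x‖ ^ 2 -
      ‖F0.2 + tp (box N) kb c' x‖ ^ 2) = _
    rw [integral_sub i1 i2, int_sq N ka c' ha, int_sq N kb c' hb]
    have : ∑ k ∈ (box N).erase 0, ‖kb k * c' k‖ ^ 2 = ∑ k ∈ (box N).erase 0, ‖ka k * c' k‖ ^ 2 := by
      refine Finset.sum_congr rfl fun k _ => ?_
      rw [norm_mul, norm_mul, norm_kb]
    rw [this]
    ring
  exact h1.ge

end Pool.Agent.W925.MQ.Det
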