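import Pool.Agent.W360.MQ.Stm

/-! # MQ-ROC: rank-one convexity along diagonal lines -/

set_option autoImplicit false

namespace Pool.Agent.W925.MQ.Roc

open MeasureTheory Set Filter Topology
open Pool.Agent.W360.MQ

/-- the diagonal matrix -/
def dg (t τ : ℝ) : Matrix (Fin 2) (Fin 2) ℝ := !![t, 0; 0, τ]

theorem cab_dg (t τ : ℝ) : cab (dg t τ) = ((((t + τ) / 2 : ℝ) : ℂ), (((t - τ) / 2 : ℝ) : ℂ)) := by
  unfold cab dg
  simp

theorem wf_dg (α β : ℝ → ℝ) (t τ : ℝ) : wf α β (cab (dg t τ)) =
    α (max |t| |τ|) + β (max |t| |τ|) * (t * τ) := by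
  have h1 : |(t + τ) / 2| + |(t - τ) / 2| = max |t| |τ| := by
    rcases le_total |t| |τ| with h | h
    · rw [max_eq_right h]
      have h2 := abs_le.1 h
      rcases le_total 0 τ with h3 | h3
      · rw [abs_of_nonneg h3] at h2 ⊢
        rw [abs_of_nonneg (by linarith), abs_of_nonpos (by linarith)]
        ring
      · rw [abs_of_nonpos h3] at h2 ⊢
        rw [abs_of_nonpos (by linarith), abs_of_nonneg (by linarith)]
        ring
    · rw [max_eq_left h]
      have h2 := abs_le.1 h
      rcases le_total 0 t with h3 | h3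
      · rw [abs_of_nonneg h3] at h2 ⊢
        rw [abs_of_nonneg (by linarith), abs_of_nonneg (by linarith)]
        ring
      · rw [abs_of_nonpos h3] at h2 ⊢
        rw [abs_of_nonpos (by linarith), abs_of_nonpos (by linarith)]
        ring
  unfold wf
  rw [cab_dg]
  simp only [Complex.norm_real, Real.norm_eq_abs, h1, sq_abs]
  ring

theorem rank_dg (s : ℝ) (hs : s ≠ 0) : (dg s 0).rank = 1 := by
  have h1 : dg s 0 = Matrix.diagonal ![s, 0] := by
    ext i j
    fin_cases i <;> fin_cases j <;> simp [dg]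
  rw [h1, Matrix.rank_diagonal, Fintype.card_eq_one_iff]
  refine ⟨⟨0, by simpa using hs⟩, ?_⟩
  rintro ⟨y, hy⟩
  fin_cases y
  · rfl
  · exact absurd rfl hy

theorem main : S_ROC := by
  intro α β hR τ
  refine ⟨convex_univ, ?_⟩
  intro t1 _ t2 _ a b ha hb hab
  simp only [smul_eq_mul]
  by_cases h : t1 = t2
  · subst h
    have h1 : a * t1 + b * t1 = t1 := by rw [← add_mul, hab, one_mul]
    rw [h1, ← add_mul, hab, one_mul]
  have hb1 : b ≤ 1 := by linarith
  have h1 := hR (dg t1 τ) (dg (t2 - t1) 0) (rank_dg _ (sub_ne_zero.2 (Ne.symm h))) b hb hb1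
  have e1 : dg t1 τ + dg (t2 - t1) 0 = dg t2 τ := by
    ext i j
    fin_cases i <;> fin_cases j <;> simp [dg]
  have e2 : (1 - b) • dg t1 τ + b • dg t2 τ = dg (a * t1 + b * t2) τ := by
    have : a = 1 - b := by linarith
    subst this
    ext i j
    fin_cases i <;> fin_cases j <;> simp [dg]
    ring
  rw [e1, e2] at h1
  simp only [wf_dg] at h1
  have : a = 1 - b := by linarith
  rw [this] at h1 ⊢
  exact h1

end Pool.Agent.W925.MQ.Roc
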